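import Pool.Agent.N666.PS.Col

set_option autoImplicit false

/-!
# Collatz trajectories of all the integers near almost all values of a generalised polynomial

Let `f (t) = ∑ a_x t ^ x` be a finite sum of real powers of `t` (with arbitrary real exponents) whose largest exponent
`c > 1` is not an integer and has a positive coefficient, for instance `f (t) = t ^ c` (the values of Piatetski-Shapiro).
There is an `η > 0` such that, for all but `C X ^ (1 - δ)` of the `n ≤ X`, for EVERY integer `m` at a distance of at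
most `X ^ δ` from `f (n)` the first `η log_2 X` terms of the trajectory of `m` under the shortcut map are
`(√3/2)^j m`, up to a factor `X ^ (η ε)`. So the Collatz orbits of all these `m` fall below
`m ^ (1 - σ)`, for every `σ < (1 - log 3 / log 4) η / c`, and all these `m` have finite stopping time.
-/

namespace Pool.Agent.Results.MP_529d88_nt.PiatetskiShapiroTrajectories

open Finset

/-- The Collatz map. -/
def Col (n : ℕ) : ℕ := if n % 2 = 0 then n / 2 else 3 * n + 1

/-- The shortcut map. -/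
def T (n : ℕ) : ℕ := if n % 2 = 0 then n / 2 else (3 * n + 1) / 2

/-- The generalised polynomial with the exponents `x ∈ F` and the coefficients `a x`. -/
noncomputable def f (F : Finset ℝ) (a : ℝ → ℝ) (t : ℝ) : ℝ := ∑ x ∈ F, a x * t ^ x

/-- The integer `m` is positive, and for `2 ^ j ≤ Y` the term `T^j m` of its trajectory is `(√3 / 2) ^ j m`, up to a
factor between `Y ^ (-ε)` and `Y ^ ε`. -/
def Typical (ε Y : ℝ) (m : ℤ) : Prop :=
  0 < m ∧ ∀ j : ℕ, (2 : ℝ) ^ j ≤ Y →
    Y ^ (-ε) * (√3 / 2) ^ j * m ≤ T^[j] m.toNat ∧ (T^[j] m.toNat : ℝ) ≤ Y ^ ε * (√3 / 2) ^ j * m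

/-- The integer `m` is positive, and some term of its Collatz orbit is smaller than `m` and at most `m ^ (1 - σ)`. -/
def Falls (σ : ℝ) (m : ℤ) : Prop :=
  0 < m ∧ ∃ k : ℕ, Col^[k] m.toNat < m.toNat ∧ (Col^[k] m.toNat : ℝ) ≤ (m : ℝ) ^ (1 - σ)

open Classical in
/-- The number of the `n ≤ X` for which some integer `m` with `|m - f n| ≤ D` does not have the property `P`. -/
noncomputable def exceptions (F : Finset ℝ) (a : ℝ → ℝ) (D : ℝ) (P : ℤ → Prop) (X : ℕ) : ℕ :=
  ((Icc 1 X).filter (fun n : ℕ => ∃ m : ℤ, |(m : ℝ) - f F a n| ≤ D ∧ ¬ P m)).card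

lemma ty_iff (ε Y : ℝ) (m : ℤ) : Pool.Agent.N666.PS.Ty ε Y m ↔ Typical ε Y m := by
  unfold Pool.Agent.N666.PS.Ty Pool.Agent.Y927.CP.Typ Typical
  rw [Polynomial.eval_C]
  exact Iff.rfl

/-- Let `f (t) = ∑ x ∈ F, a x * t ^ x`, where `F` is a finite set of real exponents whose largest element `c` is
larger than `1` and not an integer, and where `a c > 0`. There is an `η > 0` with the following properties.
1. For every `ε > 0` there are `δ, C > 0` such that for all `X ≥ 1` and all but `C X ^ (1 - δ)` of the `n ≤ X`, EVERY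
integer `m` with `|m - f n| ≤ X ^ δ` is positive and satisfies `T^j m = (√3 / 2) ^ j m` up to a factor between
`X ^ (-η ε)` and `X ^ (η ε)`, for all `j` with `2 ^ j ≤ X ^ η`.
2. For every `σ` with `0 < σ < (1 - log 3 / log 4) η / c` there are `δ, C > 0` such that for all `X ≥ 1` and all but
`C X ^ (1 - δ)` of the `n ≤ X`, EVERY integer `m` with `|m - f n| ≤ X ^ δ` is positive and its Collatz orbit has a term
which is smaller than `m` and at most `m ^ (1 - σ)`. -/
theorem result (F : Finset ℝ) (a : ℝ → ℝ) (c : ℝ) (hcF : c ∈ F) (hmax : ∀ x ∈ F, x ≤ c) (hac : 0 < a c)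
    (hc : 1 < c) (hcn : ∀ k : ℕ, c ≠ k) :
    ∃ η : ℝ, 0 < η ∧
      (∀ ε : ℝ, 0 < ε → ∃ δ C : ℝ, 0 < δ ∧ 0 < C ∧ ∀ X : ℕ, 1 ≤ X →
        (exceptions F a ((X : ℝ) ^ δ) (Typical ε ((X : ℝ) ^ η)) X : ℝ) ≤ C * (X : ℝ) ^ (1 - δ)) ∧
      (∀ σ : ℝ, 0 < σ → σ < (1 - Real.log 3 / Real.log 4) * η / c → ∃ δ C : ℝ, 0 < δ ∧ 0 < C ∧ ∀ X : ℕ, 1 ≤ X →
        (exceptions F a ((X : ℝ) ^ δ) (Falls σ) X : ℝ) ≤ C * (X : ℝ) ^ (1 - δ)) := by
  classical
  have h : Pool.Agent.N666.PS.GH F a c := ⟨hcF, hmax, hac, hc, hcn⟩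
  obtain ⟨η, hη, hη1, hmain⟩ := Pool.Agent.N666.PS.col_main h
  refine ⟨η, hη, fun ε hε => ?_, fun σ hσ0 hσ => ?_⟩
  · obtain ⟨δ, C, hδ, hδ1, hC, h1⟩ := hmain (min ε 1) (lt_min hε one_pos) (min_le_right _ _)
    refine ⟨δ, C, hδ, hC, fun X hX => ?_⟩
    unfold exceptions
    refine h1 X hX _ (filter_subset _ _) ?_
    intro n hn
    rw [mem_filter] at hn
    obtain ⟨m, hm1, hm2⟩ := hn.2
    refine ⟨m, ?_, fun hcon => hm2 ?_⟩
    · rw [Pool.Agent.N666.PS.gp_zero]
      exact hm1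
    · have h2 := hcon.2
      have hY : 1 ≤ (X : ℝ) ^ η := Real.one_le_rpow (by exact_mod_cast hX) hη.le
      unfold Pool.Agent.N666.PS.Ty at h2
      have h3 := h2.mono (min_le_left ε 1) hY
      exact (ty_iff ε _ m).1 h3
  · have hσ' : c * σ < Pool.Agent.Y927.CP.κ * η := by
      rw [lt_div_iff₀ (by linarith)] at hσ
      unfold Pool.Agent.Y927.CP.κ
      linarith
    obtain ⟨δ, C, hδ, hC, h1⟩ := Pool.Agent.N666.PS.col_falls h η hη hη1 hmain σ hσ0 hσ'
    refine ⟨δ, C, hδ, hC, fun X hX => ?_⟩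
    unfold exceptions
    refine h1 X hX _ (filter_subset _ _) ?_
    intro n hn
    rw [mem_filter] at hn
    obtain ⟨m, hm1, hm2⟩ := hn.2
    refine ⟨m, ?_, hm2⟩
    rw [Pool.Agent.N666.PS.gp_zero]
    exact hm1

end Pool.Agent.Results.MP_529d88_nt.PiatetskiShapiroTrajectories
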